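import Pool.Agent.Helper51K9.WD.Gap
import Pool.Agent.H359R3.MX10

/-!
Actions with two Bernoulli pieces: an antichain of free actions of size continuum.
-/

set_option autoImplicit false

namespace Pool.Agent.Helper51K9.WD

open MeasureTheory Set Filter Topology
open scoped ENNReal symmDiff Cardinal

/-! ### The Bernoulli shift is free and has no atoms -/

/-- pairwise disjoint sets of the same measure in a probability space -/
theorem null_of_disjoint {Y : Type} [MeasurableSpace Y] {P : Measure Y} [IsProbabilityMeasure P]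
    (E : ℕ → Set Y) (c : ℝ≥0∞) (hE : ∀ n, MeasurableSet (E n)) (hc : ∀ n, P (E n) = c)
    (hd : Pairwise (Function.onFun Disjoint E)) : c = 0 := by
  by_contra h
  have h1 := measure_iUnion hd hE (μ := P)
  simp only [hc] at h1
  rw [ENNReal.tsum_const_eq_top_of_ne_zero h] at h1
  exact measure_ne_top P _ h1

variable {Γ : Type} [Group Γ] [Countable Γ]

theorem free_sh {γ : Γ} (hγ : γ ≠ 1) : PP (Γ × ℕ) {y | sh γ y = y} = 0 := by
  classical
  have hE : MeasurableSet {y : Γ × ℕ → Bool | sh γ y = y} :=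
    measurableSet_eq_fun (mp_sh γ).measurable measurable_id
  refine null_of_disjoint (P := PP (Γ × ℕ)) (fun n => fl ((1 : Γ), n) ⁻¹' {y | sh γ y = y}) _
    (fun n => (mp_fl _).measurable hE) (fun n => (mp_fl _).measure_preimage hE.nullMeasurableSet)
    fun n m hnm => ?_
  rw [Function.onFun, Set.disjoint_left]
  intro y h1 h2
  have h3 : sh γ (fl ((1 : Γ), n) y) (1, n) = fl ((1 : Γ), n) y (1, n) :=
    congrFun (show sh γ (fl ((1 : Γ), n) y) = fl ((1 : Γ), n) y from h1) (1, n)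
  have h4 : sh γ (fl ((1 : Γ), m) y) (1, n) = fl ((1 : Γ), m) y (1, n) :=
    congrFun (show sh γ (fl ((1 : Γ), m) y) = fl ((1 : Γ), m) y from h2) (1, n)
  have hγ' : γ⁻¹ ≠ 1 := inv_ne_one.2 hγ
  have h5 : tau γ⁻¹ ((1 : Γ), n) = (γ⁻¹, n) := by rw [tau_apply, mul_one]
  have h6 : ((γ⁻¹, n) : Γ × ℕ) ≠ (1, n) := fun h => hγ' (congrArg Prod.fst h)
  have h7 : ((γ⁻¹, n) : Γ × ℕ) ≠ (1, m) := fun h => hγ' (congrArg Prod.fst h)
  have h8 : (((1 : Γ), n) : Γ × ℕ) ≠ (1, m) := fun h => hnm (congrArg Prod.snd h)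
  simp only [sh, h5, fl, if_neg h6, if_neg h7, if_neg h8, if_true] at h3 h4
  rw [h4] at h3
  cases hy : y (1, n) <;> rw [hy] at h3 <;> simp at h3

omit [Countable Γ] in
theorem null_point [Countable Γ] (y : Γ × ℕ → Bool) : PP (Γ × ℕ) {y} = 0 := by
  classical
  have hE : MeasurableSet ({y} : Set (Γ × ℕ → Bool)) := measurableSet_singleton y
  refine null_of_disjoint (P := PP (Γ × ℕ)) (fun n => fl ((1 : Γ), n) ⁻¹' {y}) _
    (fun n => (mp_fl _).measurable hE) (fun n => (mp_fl _).measure_preimage hE.nullMeasurableSet)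
    fun n m hnm => ?_
  rw [Function.onFun, Set.disjoint_left]
  intro z h1 h2
  have h3 : fl ((1 : Γ), n) z (1, n) = y (1, n) :=
    congrFun (show fl ((1 : Γ), n) z = y from h1) (1, n)
  have h4 : fl ((1 : Γ), m) z (1, n) = y (1, n) :=
    congrFun (show fl ((1 : Γ), m) z = y from h2) (1, n)
  have h8 : (((1 : Γ), n) : Γ × ℕ) ≠ (1, m) := fun h => hnm (congrArg Prod.snd h)
  simp only [fl, if_neg h8, if_true] at h3 h4
  rw [← h4] at h3
  cases hy : z (1, n) <;> rw [hy] at h3 <;> simp at h3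

/-! ### Two pieces -/

/-- the measure of two pieces of the measures `1 - p` and `p` -/
noncomputable def mz (Γ : Type) (p : ℝ) : Measure (Bool × (Γ × ℕ → Bool)) :=
  ENNReal.ofReal (1 - p) • (PP (Γ × ℕ)).map (Prod.mk false) +
    ENNReal.ofReal p • (PP (Γ × ℕ)).map (Prod.mk true)

/-- the action on two pieces -/
def za (γ : Γ) (z : Bool × (Γ × ℕ → Bool)) : Bool × (Γ × ℕ → Bool) := (z.1, sh γ z.2)

omit [Group Γ] [Countable Γ] in
theorem mz_apply (p : ℝ) {B : Set (Bool × (Γ × ℕ → Bool))} (hB : MeasurableSet B) :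
    mz Γ p B = ENNReal.ofReal (1 - p) * PP (Γ × ℕ) (Prod.mk false ⁻¹' B) +
      ENNReal.ofReal p * PP (Γ × ℕ) (Prod.mk true ⁻¹' B) := by
  unfold mz
  rw [Measure.add_apply, Measure.smul_apply, Measure.smul_apply, smul_eq_mul, smul_eq_mul,
    Measure.map_apply measurable_prodMk_left hB, Measure.map_apply measurable_prodMk_left hB]

omit [Group Γ] [Countable Γ] in
theorem mz_real {p : ℝ} (h0 : 0 ≤ p) (h1 : p ≤ 1) {B : Set (Bool × (Γ × ℕ → Bool))}
    (hB : MeasurableSet B) :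
    (mz Γ p).real B = (1 - p) * (PP (Γ × ℕ)).real (Prod.mk false ⁻¹' B) +
      p * (PP (Γ × ℕ)).real (Prod.mk true ⁻¹' B) := by
  rw [measureReal_def, mz_apply p hB, ENNReal.toReal_add, ENNReal.toReal_mul, ENNReal.toReal_mul,
    ENNReal.toReal_ofReal (by linarith), ENNReal.toReal_ofReal h0]
  · rfl
  · exact ENNReal.mul_ne_top ENNReal.ofReal_ne_top (measure_ne_top _ _)
  · exact ENNReal.mul_ne_top ENNReal.ofReal_ne_top (measure_ne_top _ _)

omit [Group Γ] [Countable Γ] in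
theorem mz_prob {p : ℝ} (h0 : 0 ≤ p) (h1 : p ≤ 1) : IsProbabilityMeasure (mz Γ p) := by
  refine ⟨?_⟩
  rw [mz_apply p MeasurableSet.univ, preimage_univ, preimage_univ, measure_univ, mul_one, mul_one,
    ← ENNReal.ofReal_add (by linarith) h0]
  simp

omit [Countable Γ] in
theorem meas_za (γ : Γ) : Measurable (za γ) :=
  measurable_fst.prodMk ((mp_sh γ).measurable.comp measurable_snd)

omit [Countable Γ] in
theorem mp_za (p : ℝ) (γ : Γ) : MeasurePreserving (za γ) (mz Γ p) (mz Γ p) := by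
  refine ⟨meas_za γ, ?_⟩
  ext B hB
  rw [Measure.map_apply (meas_za γ) hB, mz_apply p (meas_za γ hB), mz_apply p hB]
  have h1 : ∀ b : Bool, PP (Γ × ℕ) (Prod.mk b ⁻¹' (za γ ⁻¹' B)) = PP (Γ × ℕ) (Prod.mk b ⁻¹' B) := by
    intro b
    have h2 : Prod.mk b ⁻¹' (za γ ⁻¹' B) = sh γ ⁻¹' (Prod.mk b ⁻¹' B) := rfl
    rw [h2]
    exact (mp_sh γ).measure_preimage (measurable_prodMk_left hB).nullMeasurableSet
  rw [h1, h1]

theorem mz_null (p : ℝ) : NullSingletonClass (mz Γ p) := by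
  refine ⟨fun z => ?_⟩
  rw [mz_apply p (measurableSet_singleton z)]
  have h1 : ∀ b : Bool, PP (Γ × ℕ) (Prod.mk b ⁻¹' {z}) = 0 := by
    intro b
    refine measure_mono_null (fun y hy => ?_) (null_point z.2)
    have h2 : (b, y) = z := hy
    rw [← h2]
    rfl
  rw [h1, h1, mul_zero, mul_zero, add_zero]

theorem za_free (p : ℝ) : ∀ᵐ z ∂(mz Γ p), ∀ γ : Γ, γ ≠ 1 → za γ z ≠ z := by
  rw [ae_all_iff]
  intro γ
  by_cases hγ : γ = 1
  · exact Eventually.of_forall fun z h => absurd hγ h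
  · have h1 : MeasurableSet {y : Γ × ℕ → Bool | sh γ y = y} :=
      measurableSet_eq_fun (mp_sh γ).measurable measurable_id
    have h2 : MeasurableSet {z : Bool × (Γ × ℕ → Bool) | sh γ z.2 = z.2} := measurable_snd h1
    have h3 : mz Γ p {z : Bool × (Γ × ℕ → Bool) | sh γ z.2 = z.2} = 0 := by
      rw [mz_apply p h2]
      have h4 : ∀ b : Bool, PP (Γ × ℕ) (Prod.mk b ⁻¹' {z | sh γ z.2 = z.2}) = 0 := fun b =>
        free_sh hγ
      rw [h4, h4, mul_zero, mul_zero, add_zero]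
    rw [ae_iff]
    refine measure_mono_null (fun z hz => ?_) h3
    have h5 : ¬ (γ ≠ 1 → za γ z ≠ z) := hz
    push Not at h5
    exact congrArg Prod.snd h5.2

/-! ### Transport to a standard probability space -/

variable {X : Type} [MeasurableSpace X] [StandardBorelSpace X] (μ : Measure X)
  [IsProbabilityMeasure μ] [NullSingletonClass μ]

theorem exists_equiv {p : ℝ} (h0 : 0 ≤ p) (h1 : p ≤ 1) :
    ∃ e : X ≃ᵐ Bool × (Γ × ℕ → Bool), MeasurePreserving e μ (mz Γ p) := by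
  have := mz_prob (Γ := Γ) h0 h1
  have := mz_null (Γ := Γ) p
  obtain ⟨e₁, he₁⟩ := Pool.H359R3.MX.exists_iso μ
  obtain ⟨e₂, he₂⟩ := Pool.H359R3.MX.exists_iso (mz Γ p)
  exact ⟨e₁.trans e₂.symm, (he₂.symm e₂).comp he₁⟩

/-- the transported action -/
def pa {p : ℝ} (e : X ≃ᵐ Bool × (Γ × ℕ → Bool)) (he : MeasurePreserving e μ (mz Γ p)) :
    PmpAction Γ X μ where
  act γ x := e.symm (za γ (e x))
  one x := by
    have : za (1 : Γ) (e x) = e x := by
      unfold za
      rw [sh_one]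
    rw [this, e.symm_apply_apply]
  mul g h x := by
    rw [e.apply_symm_apply]
    have : za (g * h) (e x) = za g (za h (e x)) := by
      unfold za
      rw [sh_mul]
    rw [this]
  mp g := (he.symm e).comp ((mp_za p g).comp he)

theorem pa_free {p : ℝ} (e : X ≃ᵐ Bool × (Γ × ℕ → Bool)) (he : MeasurePreserving e μ (mz Γ p)) :
    (pa μ e he).Free := by
  have h1 := he.quasiMeasurePreserving.ae (za_free (Γ := Γ) p)
  filter_upwards [h1] with x hx γ hγ h2
  refine hx γ hγ ?_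
  have h3 : e.symm (za γ (e x)) = x := h2
  have h4 := congrArg e h3
  rwa [e.apply_symm_apply] at h4

omit [Countable Γ] [StandardBorelSpace X] [IsProbabilityMeasure μ] [NullSingletonClass μ] in
/-- the measures of almost invariant sets -/
theorem almost_inv {F : Finset Γ} {κ : ℝ} (hκ : 0 < κ)
    (hgap : ∀ B : Set (Γ × ℕ → Bool), MeasurableSet B →
      κ * ((PP (Γ × ℕ)).real B * (1 - (PP (Γ × ℕ)).real B)) ≤
        ∑ γ ∈ F, (PP (Γ × ℕ)).real ((sh γ ⁻¹' B) ∆ B))
    {p : ℝ} (h0 : 0 ≤ p) (h1 : p ≤ 1) (e : X ≃ᵐ Bool × (Γ × ℕ → Bool))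
    (he : MeasurePreserving e μ (mz Γ p)) {B : Set X} (hB : MeasurableSet B) :
    ∃ v : ℝ, (v = 0 ∨ v = 1 ∨ v = p ∨ v = 1 - p) ∧
      |μ.real B - v| * κ ≤ 2 * ∑ γ ∈ F, μ.real (((pa μ e he).act γ ⁻¹' B) ∆ B) := by
  set D : Set (Bool × (Γ × ℕ → Bool)) := e.symm ⁻¹' B with hD
  have hDm : MeasurableSet D := e.symm.measurable hB
  have hBD : B = e ⁻¹' D := by
    rw [hD, ← preimage_comp]
    simp
  have hreal : ∀ E : Set (Bool × (Γ × ℕ → Bool)), MeasurableSet E → μ.real (e ⁻¹' E) = (mz Γ p).real E := by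
    intro E hE
    rw [measureReal_def, he.measure_preimage hE.nullMeasurableSet]
    rfl
  have hact : ∀ γ, ((pa μ e he).act γ ⁻¹' B) ∆ B = e ⁻¹' ((za γ ⁻¹' D) ∆ D) := by
    intro γ
    rw [preimage_symmDiff, ← hBD]
    congr 1
  have hsec : ∀ (γ : Γ) (b : Bool), Prod.mk b ⁻¹' ((za γ ⁻¹' D) ∆ D)
      = (sh γ ⁻¹' (Prod.mk b ⁻¹' D)) ∆ (Prod.mk b ⁻¹' D) := fun γ b => rfl
  set u : Bool → ℝ := fun b => (PP (Γ × ℕ)).real (Prod.mk b ⁻¹' D) with hu
  have hu0 : ∀ b, 0 ≤ u b := fun b => measureReal_nonneg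
  have hu1 : ∀ b, u b ≤ 1 := fun b => measureReal_le_one
  have hg : ∀ b, κ * (u b * (1 - u b)) ≤
      ∑ γ ∈ F, (PP (Γ × ℕ)).real ((sh γ ⁻¹' (Prod.mk b ⁻¹' D)) ∆ (Prod.mk b ⁻¹' D)) := fun b =>
    hgap _ (measurable_prodMk_left hDm)
  have hsum : ∑ γ ∈ F, μ.real (((pa μ e he).act γ ⁻¹' B) ∆ B)
      = (1 - p) * ∑ γ ∈ F, (PP (Γ × ℕ)).real
          ((sh γ ⁻¹' (Prod.mk false ⁻¹' D)) ∆ (Prod.mk false ⁻¹' D)) +
        p * ∑ γ ∈ F, (PP (Γ × ℕ)).real
          ((sh γ ⁻¹' (Prod.mk true ⁻¹' D)) ∆ (Prod.mk true ⁻¹' D)) := by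
    rw [Finset.mul_sum, Finset.mul_sum, ← Finset.sum_add_distrib]
    refine Finset.sum_congr rfl fun γ _ => ?_
    rw [hact, hreal _ ((meas_za γ hDm).symmDiff hDm),
      mz_real h0 h1 ((meas_za γ hDm).symmDiff hDm), hsec, hsec]
  have hmB : μ.real B = (1 - p) * u false + p * u true := by
    rw [hBD, hreal D hDm, mz_real h0 h1 hDm]
  have hround : ∀ b, ∃ w : ℝ, (w = 0 ∨ w = 1) ∧ |u b - w| ≤ 2 * (u b * (1 - u b)) := by
    intro b
    have h2 := hu0 b
    have h3 := hu1 b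
    by_cases h : u b ≤ 1 / 2
    · refine ⟨0, Or.inl rfl, ?_⟩
      rw [sub_zero, abs_of_nonneg h2]
      nlinarith
    · push Not at h
      refine ⟨1, Or.inr rfl, ?_⟩
      rw [abs_of_nonpos (by linarith)]
      nlinarith
  obtain ⟨wf, hwf, hf⟩ := hround false
  obtain ⟨wt, hwt, ht⟩ := hround true
  refine ⟨(1 - p) * wf + p * wt, ?_, ?_⟩
  · rcases hwf with rfl | rfl <;> rcases hwt with rfl | rfl
    · left; ring
    · right; right; left; ring
    · right; right; right; ring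
    · right; left; ring
  · have h4 : |μ.real B - ((1 - p) * wf + p * wt)|
        ≤ (1 - p) * |u false - wf| + p * |u true - wt| := by
      have h5 : μ.real B - ((1 - p) * wf + p * wt)
          = (1 - p) * (u false - wf) + p * (u true - wt) := by rw [hmB]; ring
      rw [h5]
      refine (abs_add_le _ _).trans ?_
      rw [abs_mul, abs_mul, abs_of_nonneg (by linarith : (0 : ℝ) ≤ 1 - p), abs_of_nonneg h0]
    rw [hsum]
    have h6 := mul_le_mul_of_nonneg_left (hg false) (by linarith : (0 : ℝ) ≤ 1 - p)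
    have h7 := mul_le_mul_of_nonneg_left (hg true) h0
    calc |μ.real B - ((1 - p) * wf + p * wt)| * κ
        ≤ ((1 - p) * |u false - wf| + p * |u true - wt|) * κ := by gcongr
      _ ≤ ((1 - p) * (2 * (u false * (1 - u false))) + p * (2 * (u true * (1 - u true)))) * κ := by
          gcongr
      _ = 2 * ((1 - p) * (κ * (u false * (1 - u false))) + p * (κ * (u true * (1 - u true)))) := by
          ring
      _ ≤ _ := by gcongr

omit [Countable Γ] [StandardBorelSpace X] [NullSingletonClass μ] in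
/-- **No weak containment between the actions for different parameters.** -/
theorem not_wc (hna : ¬ Amenable Γ) {p q : ℝ} (h0 : 0 ≤ p) (h1 : p ≤ 1) (hq0 : 0 ≤ q)
    (hq1 : q ≤ 1) (hne : q ≠ 0 ∧ q ≠ 1 ∧ q ≠ p ∧ q ≠ 1 - p)
    (e : X ≃ᵐ Bool × (Γ × ℕ → Bool)) (he : MeasurePreserving e μ (mz Γ p))
    (e' : X ≃ᵐ Bool × (Γ × ℕ → Bool)) (he' : MeasurePreserving e' μ (mz Γ q)) :
    ¬ WC (pa μ e' he') (pa μ e he) := by
  classical
  intro hwc
  obtain ⟨F, κ, hκ, hgap⟩ := gap hna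
  -- the distance
  obtain ⟨d, hd, hdist⟩ : ∃ d > 0, ∀ v : ℝ, (v = 0 ∨ v = 1 ∨ v = p ∨ v = 1 - p) → d ≤ |q - v| := by
    refine ⟨min (min |q - 0| |q - 1|) (min |q - p| |q - (1 - p)|), ?_, ?_⟩
    · obtain ⟨a1, a2, a3, a4⟩ := hne
      refine lt_min (lt_min ?_ ?_) (lt_min ?_ ?_) <;> refine abs_pos.2 (sub_ne_zero.2 ?_) <;>
        assumption
    · rintro v (rfl | rfl | rfl | rfl)
      · exact (min_le_left _ _).trans (min_le_left _ _)
      · exact (min_le_left _ _).trans (min_le_right _ _)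
      · exact (min_le_right _ _).trans (min_le_left _ _)
      · exact (min_le_right _ _).trans (min_le_right _ _)
  set K : ℝ := 1 + 8 * F.card / κ with hK
  have hK0 : 0 < K := by positivity
  set ε : ℝ := d / (2 * K) with hε
  have hε0 : 0 < ε := by positivity
  -- the invariant set
  set A : Set X := e' ⁻¹' {z | z.1 = true} with hA
  have hTm : MeasurableSet {z : Bool × (Γ × ℕ → Bool) | z.1 = true} :=
    measurable_fst (measurableSet_singleton true)
  have hAm : MeasurableSet A := e'.measurable hTm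
  have hAq : μ.real A = q := by
    rw [hA, measureReal_def, he'.measure_preimage hTm.nullMeasurableSet, ← measureReal_def,
      mz_real hq0 hq1 hTm]
    have h2 : (Prod.mk false ⁻¹' {z : Bool × (Γ × ℕ → Bool) | z.1 = true}) = ∅ := by
      ext y; simp
    have h3 : (Prod.mk true ⁻¹' {z : Bool × (Γ × ℕ → Bool) | z.1 = true}) = univ := by
      ext y; simp
    rw [h2, h3, measureReal_empty, probReal_univ]
    ring
  have hAinv : ∀ γ, (pa μ e' he').act γ '' A = A := by
    intro γ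
    have h2 : ∀ γ : Γ, ∀ x ∈ A, (pa μ e' he').act γ x ∈ A := by
      intro γ x hx
      change e' (e'.symm (za γ (e' x))) ∈ {z : Bool × (Γ × ℕ → Bool) | z.1 = true}
      rw [e'.apply_symm_apply]
      exact hx
    apply Subset.antisymm
    · rintro _ ⟨x, hx, rfl⟩
      exact h2 γ x hx
    · intro x hx
      refine ⟨(pa μ e' he').act γ⁻¹ x, h2 γ⁻¹ x hx, ?_⟩
      rw [← (pa μ e' he').mul, mul_inv_cancel, (pa μ e' he').one]
  obtain ⟨B, hBm, hBw⟩ := hwc (insert 1 F) ε hε0 1 (fun _ => A) (fun _ => hAm)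
  have hB := hBm 0
  set a := pa μ e he with ha
  have hw : ∀ γ ∈ insert 1 F, |q - μ.real (a.act γ '' B 0 ∩ B 0)| < ε := by
    intro γ hγ
    have h2 := hBw γ hγ 0 0
    rw [hAinv, inter_self, hAq] at h2
    exact h2
  have h1B : |q - μ.real (B 0)| < ε := by
    have h2 := hw 1 (Finset.mem_insert_self _ _)
    have h3 : a.act 1 '' B 0 = B 0 := by
      ext x
      constructor
      · rintro ⟨y, hy, rfl⟩
        rw [a.one]
        exact hy
      · exact fun hx => ⟨x, hx, a.one x⟩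
    rwa [h3, inter_self] at h2
  have hsd : ∀ γ ∈ F, μ.real ((a.act γ ⁻¹' B 0) ∆ B 0) ≤ 4 * ε := by
    intro γ hγ
    have h2 := hw γ (Finset.mem_insert_of_mem hγ)
    have h3 : a.act γ ⁻¹' (a.act γ '' B 0 ∩ B 0) = B 0 ∩ a.act γ ⁻¹' B 0 := by
      have hinj : Function.Injective (a.act γ) := by
        intro x y hxy
        have := congrArg (a.act γ⁻¹) hxy
        rwa [← a.mul, ← a.mul, inv_mul_cancel, a.one, a.one] at this
      rw [preimage_inter, preimage_image_eq _ hinj]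
    have himg : a.act γ '' B 0 = a.act γ⁻¹ ⁻¹' B 0 := by
      ext x
      constructor
      · rintro ⟨y, hy, rfl⟩
        rw [mem_preimage, ← a.mul, inv_mul_cancel, a.one]
        exact hy
      · intro hx
        exact ⟨a.act γ⁻¹ x, hx, by rw [← a.mul, mul_inv_cancel, a.one]⟩
    have hmi : MeasurableSet (a.act γ '' B 0) := by
      rw [himg]
      exact (a.mp γ⁻¹).measurable hB
    have h4 : μ.real (a.act γ '' B 0 ∩ B 0) = μ.real (B 0 ∩ a.act γ ⁻¹' B 0) := by
      rw [← h3, measureReal_def, measureReal_def,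
        (a.mp γ).measure_preimage (hmi.inter hB).nullMeasurableSet]
    have hpm : MeasurableSet (a.act γ ⁻¹' B 0) := (a.mp γ).measurable hB
    have h5 : μ.real (a.act γ ⁻¹' B 0) = μ.real (B 0) := by
      rw [measureReal_def, (a.mp γ).measure_preimage hB.nullMeasurableSet]
      rfl
    have h6 : μ.real ((a.act γ ⁻¹' B 0) ∆ B 0)
        = μ.real (a.act γ ⁻¹' B 0) + μ.real (B 0) - 2 * μ.real (B 0 ∩ a.act γ ⁻¹' B 0) := by
      have h7 : (a.act γ ⁻¹' B 0) ∆ B 0
          = ((a.act γ ⁻¹' B 0) \ B 0) ∪ (B 0 \ (a.act γ ⁻¹' B 0)) := rfl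
      have h8 : Disjoint ((a.act γ ⁻¹' B 0) \ B 0) (B 0 \ (a.act γ ⁻¹' B 0)) := by
        rw [Set.disjoint_left]
        exact fun x hx hx' => hx.2 hx'.1
      rw [h7, measureReal_union h8 (hB.diff hpm)]
      have h9 := measureReal_inter_add_sdiff (μ := μ) (s := a.act γ ⁻¹' B 0) hB
      have h10 := measureReal_inter_add_sdiff (μ := μ) (s := B 0) hpm
      rw [inter_comm] at h9
      linarith
    rw [h6, h5, ← h4]
    have h7 := (abs_lt.1 h1B).1
    have h8 := (abs_lt.1 h2).2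
    linarith
  obtain ⟨v, hv, hvle⟩ := almost_inv μ hκ hgap h0 h1 e he hB
  have h2 : ∑ γ ∈ F, μ.real (((pa μ e he).act γ ⁻¹' B 0) ∆ B 0) ≤ F.card * (4 * ε) := by
    have := Finset.sum_le_card_nsmul F (fun γ => μ.real (((pa μ e he).act γ ⁻¹' B 0) ∆ B 0))
      (4 * ε) hsd
    rwa [nsmul_eq_mul] at this
  have h3 : |μ.real (B 0) - v| ≤ 8 * F.card / κ * ε := by
    rw [div_mul_eq_mul_div, le_div_iff₀ hκ]
    calc |μ.real (B 0) - v| * κ ≤ _ := hvle
      _ ≤ 2 * (F.card * (4 * ε)) := by gcongr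
      _ = _ := by ring
  have h4 : |q - v| ≤ K * ε := by
    calc |q - v| = |(q - μ.real (B 0)) + (μ.real (B 0) - v)| := by ring_nf
      _ ≤ |q - μ.real (B 0)| + |μ.real (B 0) - v| := abs_add_le _ _
      _ ≤ ε + 8 * F.card / κ * ε := add_le_add h1B.le h3
      _ = K * ε := by rw [hK]; ring
  have h5 := hdist v hv
  have h6 : K * ε = d / 2 := by
    rw [hε]
    field_simp
  linarith

omit [Countable Γ] [StandardBorelSpace X] [IsProbabilityMeasure μ] [NullSingletonClass μ] in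
theorem wc_refl (a : PmpAction Γ X μ) : WC a a := by
  intro F ε hε n A hA
  exact ⟨A, hA, fun γ _ i j => by rw [sub_self, abs_zero]; exact hε⟩

/-- the antichain -/
theorem antichain (hna : ¬ Amenable Γ) : ∃ 𝒜 : Set (PmpAction Γ X μ),
    (∀ a ∈ 𝒜, a.Free) ∧ (∀ a ∈ 𝒜, ∀ b ∈ 𝒜, a ≠ b → ¬ WC a b) ∧ #𝒜 = 𝔠 := by
  have hex : ∀ p : Ioo (0 : ℝ) (1 / 2), ∃ e : X ≃ᵐ Bool × (Γ × ℕ → Bool),
      MeasurePreserving e μ (mz Γ p) := fun p =>
    exists_equiv μ p.2.1.le (by linarith [p.2.2])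
  choose e he using hex
  let f : Ioo (0 : ℝ) (1 / 2) → PmpAction Γ X μ := fun p => pa μ (e p) (he p)
  have hf : ∀ p q, p ≠ q → ¬ WC (f q) (f p) := by
    intro p q hpq
    have hp := p.2
    have hq := q.2
    refine not_wc μ hna hp.1.le (by linarith [hp.2]) hq.1.le (by linarith [hq.2])
      ⟨hq.1.ne', by linarith [hq.2], fun h => hpq (Subtype.ext h.symm), ?_⟩ _ _ _ _
    have := hq.2
    have := hp.2
    intro h
    linarith
  have hinj : Function.Injective f := by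
    intro p q hpq
    by_contra hne
    apply hf p q hne
    rw [hpq]
    exact wc_refl μ _
  refine ⟨range f, ?_, ?_, ?_⟩
  · rintro _ ⟨p, rfl⟩
    exact pa_free μ _ _
  · rintro _ ⟨p, rfl⟩ _ ⟨q, rfl⟩ hne
    exact hf q p fun h => hne (by rw [h])
  · rw [Cardinal.mk_range_eq f hinj]
    exact Cardinal.mk_Ioo_real (by norm_num)

/-- the number of actions -/
theorem card_le : #(PmpAction Γ X μ) ≤ 𝔠 := by
  obtain ⟨e₁, -⟩ := Pool.H359R3.MX.exists_iso μ
  have hsets : #{s : Set X // MeasurableSet s} ≤ 𝔠 := by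
    obtain ⟨b, hb, hbe⟩ := MeasurableSpace.CountablyGenerated.isCountablyGenerated (α := X)
    have h1 := MeasurableSpace.cardinal_measurableSet_le_continuum (α := X) (s := b)
      ((Cardinal.le_aleph0_iff_set_countable.2 hb).trans Cardinal.aleph0_le_continuum)
    rw [← hbe] at h1
    exact h1
  let g : PmpAction Γ X μ → (Γ × ℚ → {s : Set X // MeasurableSet s}) := fun a i =>
    ⟨a.act i.1 ⁻¹' (e₁ ⁻¹' Iio (i.2 : ℝ)), (a.mp i.1).measurable (e₁.measurable measurableSet_Iio)⟩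
  have hg : Function.Injective g := by
    intro a b hab
    have h1 : a.act = b.act := by
      funext γ x
      apply e₁.injective
      have h2 : ∀ r : ℚ, e₁ (a.act γ x) < r ↔ e₁ (b.act γ x) < r := by
        intro r
        have h3 := congrArg Subtype.val (congrFun hab (γ, r))
        have h4 : a.act γ ⁻¹' (e₁ ⁻¹' Iio (r : ℝ)) = b.act γ ⁻¹' (e₁ ⁻¹' Iio (r : ℝ)) := h3
        exact Set.ext_iff.1 h4 x
      rcases lt_trichotomy (e₁ (a.act γ x)) (e₁ (b.act γ x)) with h | h | h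
      · obtain ⟨r, hr1, hr2⟩ := exists_rat_btwn h
        exact absurd ((h2 r).1 hr1) (not_lt.2 hr2.le)
      · exact h
      · obtain ⟨r, hr1, hr2⟩ := exists_rat_btwn h
        exact absurd ((h2 r).2 hr1) (not_lt.2 hr2.le)
    cases a
    cases b
    simp only at h1
    subst h1
    rfl
  calc #(PmpAction Γ X μ) ≤ #(Γ × ℚ → {s : Set X // MeasurableSet s}) := Cardinal.mk_le_of_injective hg
    _ = #{s : Set X // MeasurableSet s} ^ #(Γ × ℚ) := by simp
    _ ≤ 𝔠 ^ Cardinal.aleph0 := by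
        refine (Cardinal.power_le_power_right hsets).trans ?_
        exact Cardinal.power_le_power_left Cardinal.continuum_ne_zero (Cardinal.mk_le_aleph0)
    _ = 𝔠 := Cardinal.continuum_power_aleph0

end Pool.Agent.Helper51K9.WD
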