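import Mathlib

/-!
Probability measure preserving actions, weak containment, amenable groups.
-/

set_option autoImplicit false

namespace Pool.Agent.Helper51K9.WD

open MeasureTheory Set

/-- The group `Γ` is amenable: there is a finitely additive probability measure on all subsets of `Γ`
which is invariant under left translations. -/
def Amenable (Γ : Type) [Group Γ] : Prop :=
  ∃ m : Set Γ → ℝ, (∀ A, 0 ≤ m A) ∧ m univ = 1 ∧
    (∀ A B, Disjoint A B → m (A ∪ B) = m A + m B) ∧
    ∀ (g : Γ) (A : Set Γ), m ((fun h => g * h) '' A) = m A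

variable {Γ X : Type} [Group Γ] [MeasurableSpace X]

/-- An action of `Γ` on `X` by transformations which preserve the probability measure `μ`. -/
structure PmpAction (Γ X : Type) [Group Γ] [MeasurableSpace X] (μ : Measure X) where
  /-- the transformation `x ↦ γ · x` -/
  act : Γ → X → X
  one : ∀ x, act 1 x = x
  mul : ∀ (g h : Γ) (x : X), act (g * h) x = act g (act h x)
  mp : ∀ g, MeasurePreserving (act g) μ μ

variable {μ : Measure X}

/-- The action is free: almost everywhere, `γ · x ≠ x` for all `γ ≠ 1`. -/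
def PmpAction.Free (a : PmpAction Γ X μ) : Prop := ∀ᵐ x ∂μ, ∀ γ : Γ, γ ≠ 1 → a.act γ x ≠ x

/-- Weak containment `b ≼ a` in the sense of Kechris. -/
def WC (b a : PmpAction Γ X μ) : Prop :=
  ∀ (F : Finset Γ) (ε : ℝ), 0 < ε → ∀ (n : ℕ) (A : Fin n → Set X), (∀ i, MeasurableSet (A i)) →
    ∃ B : Fin n → Set X, (∀ i, MeasurableSet (B i)) ∧ ∀ γ ∈ F, ∀ i j,
      |μ.real (b.act γ '' A i ∩ A j) - μ.real (a.act γ '' B i ∩ B j)| < ε

end Pool.Agent.Helper51K9.WD
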