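import Pool.Agent.Helper51K9.WD.Walsh
import Pool.Agent.Helper51K9.WD.Defs

/-!
Bernoulli shifts of nonamenable groups are strongly ergodic.
-/

set_option autoImplicit false

namespace Pool.Agent.Helper51K9.WD

open MeasureTheory Set Filter Topology
open scoped ENNReal symmDiff

variable {Γ : Type} [Group Γ]

/-- left translation of the indices -/
def tau (γ : Γ) : Γ × ℕ ≃ Γ × ℕ := (Equiv.mulLeft γ).prodCongr (Equiv.refl ℕ)

theorem tau_apply (γ : Γ) (i : Γ × ℕ) : tau γ i = (γ * i.1, i.2) := rfl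

/-- the shift -/
def sh (γ : Γ) (y : Γ × ℕ → Bool) : Γ × ℕ → Bool := fun i => y (tau γ⁻¹ i)

theorem mp_sh (γ : Γ) : MeasurePreserving (sh γ) (PP (Γ × ℕ)) (PP (Γ × ℕ)) := mp_perm _

theorem sh_one (y : Γ × ℕ → Bool) : sh 1 y = y := by
  funext i
  simp [sh, tau_apply]

theorem sh_mul (g h : Γ) (y : Γ × ℕ → Bool) : sh (g * h) y = sh g (sh h y) := by
  funext i
  simp [sh, tau_apply, mul_assoc]

theorem tau_tau_inv (γ : Γ) (i : Γ × ℕ) : tau γ⁻¹ (tau γ i) = i := by
  simp [tau_apply]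

theorem tau_inv_tau (γ : Γ) (i : Γ × ℕ) : tau γ (tau γ⁻¹ i) = i := by
  simp [tau_apply]

/-- the translate of a finite set -/
def mv (γ : Γ) (S : Finset (Γ × ℕ)) : Finset (Γ × ℕ) := S.map (tau γ).toEmbedding

theorem mem_mv {γ : Γ} {S : Finset (Γ × ℕ)} {i : Γ × ℕ} : i ∈ mv γ S ↔ tau γ⁻¹ i ∈ S := by
  unfold mv
  rw [Finset.mem_map]
  constructor
  · rintro ⟨j, hj, rfl⟩
    change tau γ⁻¹ (tau γ j) ∈ S
    rw [tau_tau_inv]
    exact hj
  · intro h
    exact ⟨tau γ⁻¹ i, h, tau_inv_tau γ i⟩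

theorem mv_mv_inv (γ : Γ) (S : Finset (Γ × ℕ)) : mv γ (mv γ⁻¹ S) = S := by
  ext i
  rw [mem_mv, mem_mv, inv_inv, tau_inv_tau]

theorem mv_inv_mv (γ : Γ) (S : Finset (Γ × ℕ)) : mv γ⁻¹ (mv γ S) = S := by
  ext i
  rw [mem_mv, mem_mv, inv_inv, tau_tau_inv]

theorem chi_sh (γ : Γ) (S : Finset (Γ × ℕ)) (y : Γ × ℕ → Bool) :
    chi S (sh γ⁻¹ y) = chi (mv γ S) y := by
  unfold chi mv
  rw [Finset.prod_map]
  refine Finset.prod_congr rfl fun i _ => ?_
  simp only [sh, inv_inv]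
  rfl

theorem fc_sh (f : (Γ × ℕ → Bool) → ℝ) (hf : Measurable f) (γ : Γ) (S : Finset (Γ × ℕ)) :
    fc (fun y => f (sh γ y)) S = fc f (mv γ S) := by
  unfold fc
  have h1 : ∀ y, f (sh γ y) * chi S y = (fun z => f z * chi S (sh γ⁻¹ z)) (sh γ y) := by
    intro y
    simp only
    rw [← sh_mul, inv_mul_cancel, sh_one]
  simp only [h1]
  have h2 := integral_map (μ := PP (Γ × ℕ)) (mp_sh γ).measurable.aemeasurable
    (f := fun z => f z * chi S (sh γ⁻¹ z))
    (hf.mul ((meas_chi S).comp (mp_sh γ⁻¹).measurable)).aestronglyMeasurable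
  rw [(mp_sh γ).map_eq] at h2
  rw [← h2]
  simp only [chi_sh]

open Classical in
/-- the proportion of the elements of `S` over `A` -/
noncomputable def rt (A : Set Γ) (S : Finset (Γ × ℕ)) : ℝ :=
  ((S.filter fun i => i.1 ∈ A).card : ℝ) / S.card

omit [Group Γ] in
theorem rt_nonneg (A : Set Γ) (S : Finset (Γ × ℕ)) : 0 ≤ rt A S := by
  unfold rt
  positivity

omit [Group Γ] in
theorem rt_le_one (A : Set Γ) (S : Finset (Γ × ℕ)) : rt A S ≤ 1 := by
  classical
  unfold rt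
  refine div_le_one_of_le₀ ?_ (by positivity)
  exact_mod_cast Finset.card_filter_le _ _

omit [Group Γ] in
theorem rt_empty (A : Set Γ) : rt A (∅ : Finset (Γ × ℕ)) = 0 := by
  unfold rt
  simp

omit [Group Γ] in
theorem rt_univ {S : Finset (Γ × ℕ)} (hS : S ≠ ∅) : rt (univ : Set Γ) S = 1 := by
  unfold rt
  have h1 : (S.card : ℝ) ≠ 0 := by
    exact_mod_cast (Finset.card_pos.2 (Finset.nonempty_iff_ne_empty.2 hS)).ne'
  simp only [mem_univ, Finset.filter_true]
  exact div_self h1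

omit [Group Γ] in
theorem rt_union {A B : Set Γ} (h : Disjoint A B) (S : Finset (Γ × ℕ)) :
    rt (A ∪ B) S = rt A S + rt B S := by
  classical
  unfold rt
  rw [← add_div]
  congr 1
  rw [← Nat.cast_add, ← Finset.card_union_of_disjoint]
  · congr 2
    ext i
    simp only [Finset.mem_filter, Finset.mem_union, mem_union]
    tauto
  · rw [Finset.disjoint_left]
    intro i h1 h2
    exact Set.disjoint_left.1 h (Finset.mem_filter.1 h1).2 (Finset.mem_filter.1 h2).2

theorem rt_mv (γ : Γ) (A : Set Γ) (S : Finset (Γ × ℕ)) :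
    rt ((fun h => γ * h) '' A) (mv γ S) = rt A S := by
  classical
  unfold rt
  have h1 : (mv γ S).card = S.card := Finset.card_map _
  rw [h1]
  congr 2
  have h2 : (mv γ S).filter (fun i => i.1 ∈ (fun h => γ * h) '' A)
      = (S.filter fun i => i.1 ∈ A).map (tau γ).toEmbedding := by
    unfold mv
    ext i
    simp only [Finset.mem_filter, Finset.mem_map]
    constructor
    · rintro ⟨⟨j, hj, rfl⟩, a, ha, hja⟩
      refine ⟨j, ⟨hj, ?_⟩, rfl⟩
      have h3 : γ * a = γ * j.1 := hja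
      rw [← mul_left_cancel h3]
      exact ha
    · rintro ⟨j, ⟨hj, hjA⟩, rfl⟩
      exact ⟨⟨j, hj, rfl⟩, j.1, hjA, rfl⟩
  rw [h2, Finset.card_map]

/-- the indicator function -/
noncomputable def idc (C : Set (Γ × ℕ → Bool)) (y : Γ × ℕ → Bool) : ℝ := C.indicator (fun _ => 1) y

omit [Group Γ] in
theorem bm_idc {C : Set (Γ × ℕ → Bool)} (hC : MeasurableSet C) : BM (idc C) := by
  refine ⟨measurable_const.indicator hC, 1, fun y => ?_⟩
  unfold idc
  by_cases h : y ∈ C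
  · rw [indicator_of_mem h, abs_one]
  · rw [indicator_of_notMem h, abs_zero]
    exact zero_le_one

omit [Group Γ] in
theorem idc_sq (C : Set (Γ × ℕ → Bool)) (y : Γ × ℕ → Bool) : idc C y * idc C y = idc C y := by
  unfold idc
  by_cases h : y ∈ C
  · rw [indicator_of_mem h, mul_one]
  · rw [indicator_of_notMem h, mul_zero]

omit [Group Γ] in
theorem int_idc {C : Set (Γ × ℕ → Bool)} (hC : MeasurableSet C) :
    ∫ y, idc C y ∂(PP (Γ × ℕ)) = (PP (Γ × ℕ)).real C := by
  unfold idc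
  rw [integral_indicator hC, integral_const, smul_eq_mul, mul_one, measureReal_restrict_apply_univ]

omit [Group Γ] in
theorem fc_empty {C : Set (Γ × ℕ → Bool)} (hC : MeasurableSet C) :
    fc (idc C) ∅ = (PP (Γ × ℕ)).real C := by
  unfold fc
  rw [← int_idc hC]
  simp [chi]

theorem idc_sh (C : Set (Γ × ℕ → Bool)) (γ : Γ) (y : Γ × ℕ → Bool) :
    idc C (sh γ y) = idc (sh γ ⁻¹' C) y := rfl

omit [Group Γ] in
theorem int_diff {C D : Set (Γ × ℕ → Bool)} (hC : MeasurableSet C) (hD : MeasurableSet D) :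
    ∫ y, (idc C y - idc D y) * (idc C y - idc D y) ∂(PP (Γ × ℕ)) = (PP (Γ × ℕ)).real (C ∆ D) := by
  rw [← int_idc (hC.symmDiff hD)]
  congr 1
  funext y
  unfold idc
  by_cases h1 : y ∈ C <;> by_cases h2 : y ∈ D
  · rw [indicator_of_mem h1, indicator_of_mem h2, indicator_of_notMem]
    · ring
    · rintro (h | h)
      · exact h.2 h2
      · exact h.2 h1
  · rw [indicator_of_mem h1, indicator_of_notMem h2, indicator_of_mem (show y ∈ C ∆ D from Or.inl ⟨h1, h2⟩)]
    ring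
  · rw [indicator_of_notMem h1, indicator_of_mem h2, indicator_of_mem (show y ∈ C ∆ D from Or.inr ⟨h2, h1⟩)]
    ring
  · rw [indicator_of_notMem h1, indicator_of_notMem h2, indicator_of_notMem]
    · ring
    · rintro (h | h)
      · exact h1 h.1
      · exact h2 h.1

/-- **Approximately invariant means from approximately invariant cylinder sets.** -/
theorem approx_mean {C : Set (Γ × ℕ → Bool)} (hC : MeasurableSet C) {J : Finset (Γ × ℕ)}
    (hJ : Dep J (idc C)) (hV : 0 < (PP (Γ × ℕ)).real C - (PP (Γ × ℕ)).real C ^ 2) :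
    ∃ m : Set Γ → ℝ, (∀ A, 0 ≤ m A) ∧ m univ = 1 ∧
      (∀ A B, Disjoint A B → m (A ∪ B) = m A + m B) ∧
      ∀ (γ : Γ) (A : Set Γ), (m ((fun h => γ * h) '' A) - m A) ^ 2 *
        ((PP (Γ × ℕ)).real C - (PP (Γ × ℕ)).real C ^ 2) ≤ 4 * (PP (Γ × ℕ)).real ((sh γ ⁻¹' C) ∆ C) := by
  classical
  set V := (PP (Γ × ℕ)).real C - (PP (Γ × ℕ)).real C ^ 2 with hVd
  set f := idc C with hf
  have hfB : BM f := bm_idc hC
  -- the sum of the squares of the nonconstant coefficients, for any translate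
  have hsum : ∀ (D : Set (Γ × ℕ → Bool)) (K : Finset (Γ × ℕ)), MeasurableSet D → Dep K (idc D) →
      (PP (Γ × ℕ)).real D = (PP (Γ × ℕ)).real C →
      ∑ S ∈ K.powerset.erase ∅, fc (idc D) S ^ 2 = V := by
    intro D K hD hK hDC
    have h1 := parseval (bm_idc hD) hK
    simp only [idc_sq] at h1
    rw [int_idc hD, ← Finset.add_sum_erase _ _ (Finset.empty_mem_powerset K), fc_empty hD, hDC] at h1
    rw [hVd]
    linarith
  let m : Set Γ → ℝ := fun A => (∑ S ∈ J.powerset, fc f S ^ 2 * rt A S) / V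
  have hm : ∀ A, m A = (∑ S ∈ J.powerset, fc f S ^ 2 * rt A S) / V := fun _ => rfl
  refine ⟨m, fun A => ?_, ?_, fun A B hAB => ?_, fun γ A => ?_⟩
  · rw [hm]
    exact div_nonneg (Finset.sum_nonneg fun S _ => mul_nonneg (sq_nonneg _) (rt_nonneg A S)) hV.le
  · rw [hm, div_eq_one_iff_eq hV.ne', ← hsum C J hC hJ rfl,
      ← Finset.add_sum_erase _ _ (Finset.empty_mem_powerset J), rt_empty, mul_zero, zero_add]
    refine Finset.sum_congr rfl fun S hS => ?_
    rw [rt_univ (Finset.ne_of_mem_erase hS), mul_one]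
  · rw [hm, hm, hm, ← add_div, ← Finset.sum_add_distrib]
    congr 1
    refine Finset.sum_congr rfl fun S _ => ?_
    rw [rt_union hAB, mul_add]
  · set Cγ := sh γ ⁻¹' C with hCγ
    have hCγm : MeasurableSet Cγ := (mp_sh γ).measurable hC
    have hPC : (PP (Γ × ℕ)).real Cγ = (PP (Γ × ℕ)).real C := by
      rw [measureReal_def, (mp_sh γ).measure_preimage hC.nullMeasurableSet]
      rfl
    set Jγ := mv γ⁻¹ J with hJγ
    have hdep : Dep Jγ (idc Cγ) := by
      intro y z hyz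
      rw [hCγ, ← idc_sh, ← idc_sh]
      refine hJ _ _ fun i hi => ?_
      unfold sh
      refine hyz _ ?_
      rw [hJγ, mem_mv, inv_inv, tau_inv_tau]
      exact hi
    set J' := J ∪ Jγ with hJ'
    have hext : ∀ (D : Set (Γ × ℕ → Bool)) (K : Finset (Γ × ℕ)), MeasurableSet D → Dep K (idc D) →
        K ⊆ J' → ∀ w : Finset (Γ × ℕ) → ℝ,
          ∑ S ∈ K.powerset, fc (idc D) S ^ 2 * w S = ∑ S ∈ J'.powerset, fc (idc D) S ^ 2 * w S := by
      intro D K hD hK hKJ w
      refine Finset.sum_subset (Finset.powerset_mono.2 hKJ) fun S _ hS => ?_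
      rw [fc_zero (bm_idc hD).1 hK fun h => hS (Finset.mem_powerset.2 h)]
      ring
    have hmA : m A * V = ∑ S ∈ J'.powerset, fc f S ^ 2 * rt A S := by
      rw [hm, div_mul_cancel₀ _ hV.ne']
      exact hext C J hC hJ Finset.subset_union_left _
    have hmγ : m ((fun h => γ * h) '' A) * V = ∑ S ∈ J'.powerset, fc (idc Cγ) S ^ 2 * rt A S := by
      rw [hm, div_mul_cancel₀ _ hV.ne', ← hext Cγ Jγ hCγm hdep Finset.subset_union_right]
      symm
      refine Finset.sum_bij' (fun S _ => mv γ S) (fun S _ => mv γ⁻¹ S) (fun S hS => ?_)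
        (fun S hS => ?_) (fun S _ => mv_inv_mv γ S) (fun S _ => mv_mv_inv γ S) (fun S _ => ?_)
      · rw [Finset.mem_powerset] at hS ⊢
        intro i hi
        have h1 := hS (mem_mv.1 hi)
        rw [hJγ, mem_mv, inv_inv, tau_inv_tau] at h1
        exact h1
      · rw [Finset.mem_powerset] at hS ⊢
        intro i hi
        rw [hJγ, mem_mv]
        exact hS (mem_mv.1 hi)
      · have h1 : fc (idc Cγ) S = fc f (mv γ S) := by
          rw [← fc_sh f hfB.1 γ S]
          rfl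
        rw [h1, rt_mv]
    have hdiff : (m ((fun h => γ * h) '' A) - m A) * V
        = ∑ S ∈ J'.powerset.erase ∅, (fc (idc Cγ) S - fc f S) *
          ((fc (idc Cγ) S + fc f S) * rt A S) := by
      rw [sub_mul, hmγ, hmA, ← Finset.sum_sub_distrib,
        ← Finset.add_sum_erase _ _ (Finset.empty_mem_powerset J'), rt_empty]
      simp only [mul_zero, sub_zero, zero_add]
      refine Finset.sum_congr rfl fun S _ => by ring
    have hcs := Finset.sum_mul_sq_le_sq_mul_sq (J'.powerset.erase ∅)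
      (fun S => fc (idc Cγ) S - fc f S) (fun S => (fc (idc Cγ) S + fc f S) * rt A S)
    rw [← hdiff] at hcs
    have hb1 : ∑ S ∈ J'.powerset.erase ∅, (fc (idc Cγ) S - fc f S) ^ 2
        ≤ (PP (Γ × ℕ)).real (Cγ ∆ C) := by
      have h1 := bessel ((bm_idc hCγm).sub (bm_idc hC)) (J'.powerset.erase ∅)
      rw [int_diff hCγm hC] at h1
      refine le_trans (le_of_eq ?_) h1
      refine Finset.sum_congr rfl fun S _ => ?_
      congr 1
      unfold fc
      rw [← integral_sub ((bm_idc hCγm).mul (BM.chi S)).int (hfB.mul (BM.chi S)).int]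
      congr 1
      funext y
      rw [hf]
      ring
    have hb2 : ∑ S ∈ J'.powerset.erase ∅, ((fc (idc Cγ) S + fc f S) * rt A S) ^ 2 ≤ 4 * V := by
      have h1 : ∀ D : Set (Γ × ℕ → Bool), ∀ K, MeasurableSet D → Dep K (idc D) → K ⊆ J' →
          (PP (Γ × ℕ)).real D = (PP (Γ × ℕ)).real C →
          ∑ S ∈ J'.powerset.erase ∅, fc (idc D) S ^ 2 = V := by
        intro D K hD hK hKJ hDC
        refine hsum D J' hD (fun y z h => hK y z fun i hi => h i (hKJ hi)) hDC
      calc ∑ S ∈ J'.powerset.erase ∅, ((fc (idc Cγ) S + fc f S) * rt A S) ^ 2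
          ≤ ∑ S ∈ J'.powerset.erase ∅, (2 * fc (idc Cγ) S ^ 2 + 2 * fc f S ^ 2) := by
            refine Finset.sum_le_sum fun S _ => ?_
            have h2 := rt_nonneg A S
            have h3 := rt_le_one A S
            have h4 : rt A S ^ 2 ≤ 1 := by nlinarith
            calc ((fc (idc Cγ) S + fc f S) * rt A S) ^ 2
                = (fc (idc Cγ) S + fc f S) ^ 2 * rt A S ^ 2 := by ring
              _ ≤ (fc (idc Cγ) S + fc f S) ^ 2 * 1 := by gcongr
              _ ≤ _ := by nlinarith [sq_nonneg (fc (idc Cγ) S - fc f S)]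
        _ = 4 * V := by
            rw [Finset.sum_add_distrib, ← Finset.mul_sum, ← Finset.mul_sum,
              h1 Cγ Jγ hCγm hdep Finset.subset_union_right hPC,
              h1 C J hC hJ Finset.subset_union_left rfl]
            ring
    have hD0 : 0 ≤ (PP (Γ × ℕ)).real (Cγ ∆ C) := measureReal_nonneg
    have h5 : ((m ((fun h => γ * h) '' A) - m A) * V) ^ 2
        ≤ (PP (Γ × ℕ)).real (Cγ ∆ C) * (4 * V) :=
      hcs.trans (mul_le_mul hb1 hb2 (Finset.sum_nonneg fun S _ => sq_nonneg _) hD0)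
    have h6 : ((m ((fun h => γ * h) '' A) - m A) ^ 2 * V) * V
        ≤ (4 * (PP (Γ × ℕ)).real (Cγ ∆ C)) * V := by
      calc ((m ((fun h => γ * h) '' A) - m A) ^ 2 * V) * V
          = ((m ((fun h => γ * h) '' A) - m A) * V) ^ 2 := by ring
        _ ≤ _ := h5
        _ = _ := by ring
    exact le_of_mul_le_mul_right h6 hV

omit [Group Γ] in
theorem approx_cyl {B : Set (Γ × ℕ → Bool)} (hB : MeasurableSet B) {ε : ℝ} (hε : 0 < ε) :
    ∃ (C : Set (Γ × ℕ → Bool)) (J : Finset (Γ × ℕ)), MeasurableSet C ∧ Dep J (idc C) ∧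
      (PP (Γ × ℕ)).real (B ∆ C) ≤ ε := by
  have hdense : (PP (Γ × ℕ)).MeasureDense (measurableCylinders (fun _ : Γ × ℕ => Bool)) :=
    Measure.MeasureDense.of_generateFrom_isSetAlgebra_finite _
      isSetAlgebra_measurableCylinders generateFrom_measurableCylinders.symm
  obtain ⟨C, hC, hBC⟩ := hdense.approx B hB (measure_ne_top _ B) ε hε
  have hCm : MeasurableSet C := hdense.measurable C hC
  obtain ⟨s, S, hS, rfl⟩ := (mem_measurableCylinders C).mp hC
  refine ⟨_, s, hCm, fun y z hyz => ?_, ?_⟩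
  · have h1 : y ∈ cylinder s S ↔ z ∈ cylinder s S := by
      rw [mem_cylinder, mem_cylinder]
      have h2 : s.restrict y = s.restrict z := by
        funext i
        exact hyz i.1 i.2
      rw [h2]
    unfold idc
    by_cases h : z ∈ cylinder s S
    · rw [indicator_of_mem h, indicator_of_mem (h1.2 h)]
    · rw [indicator_of_notMem h, indicator_of_notMem fun h3 => h (h1.1 h3)]
  · rw [measureReal_def]
    exact ENNReal.toReal_le_of_le_ofReal hε.le hBC.le

/-- approximately invariant means give an invariant mean -/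
theorem amenable_of_approx
    (h : ∀ (F : Finset Γ) (n : ℕ), ∃ m : Set Γ → ℝ, (∀ A, 0 ≤ m A) ∧ m univ = 1 ∧
      (∀ A B, Disjoint A B → m (A ∪ B) = m A + m B) ∧
      ∀ γ ∈ F, ∀ A : Set Γ, |m ((fun h => γ * h) '' A) - m A| ≤ 1 / ((n : ℝ) + 1)) :
    Amenable Γ := by
  classical
  choose m h1 h2 h3 h4 using h
  let U : Ultrafilter (Finset Γ × ℕ) := Ultrafilter.of atTop
  have hU : (U : Filter (Finset Γ × ℕ)) ≤ atTop := Ultrafilter.of_le _
  have hle : ∀ p : Finset Γ × ℕ, ∀ A, m p.1 p.2 A ≤ 1 := by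
    intro p A
    have h5 := h3 p.1 p.2 A Aᶜ disjoint_compl_right
    rw [union_compl_self, h2] at h5
    have := h1 p.1 p.2 Aᶜ
    linarith
  have hlim : ∀ A : Set Γ, ∃ l, Tendsto (fun p : Finset Γ × ℕ => m p.1 p.2 A) U (𝓝 l) := by
    intro A
    obtain ⟨l, -, hl⟩ := (isCompact_Icc (a := (0 : ℝ)) (b := 1)).ultrafilter_le_nhds
      (U.map fun p => m p.1 p.2 A) (by
        rw [Ultrafilter.coe_map, le_principal_iff, Filter.mem_map]
        exact Filter.univ_mem' fun p => ⟨h1 p.1 p.2 A, hle p A⟩)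
    exact ⟨l, hl⟩
  choose M hM using hlim
  refine ⟨M, fun A => ?_, ?_, fun A B hAB => ?_, fun g A => ?_⟩
  · exact ge_of_tendsto (hM A) (Eventually.of_forall fun p => h1 p.1 p.2 A)
  · have h5 := hM univ
    simp only [h2] at h5
    exact tendsto_nhds_unique h5 tendsto_const_nhds
  · have h5 := hM (A ∪ B)
    simp only [h3 _ _ A B hAB] at h5
    exact tendsto_nhds_unique h5 ((hM A).add (hM B))
  · have hsnd : Tendsto (fun p : Finset Γ × ℕ => p.2) atTop atTop := by
      rw [← prod_atTop_atTop_eq]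
      exact tendsto_snd
    have h5 : Tendsto (fun p : Finset Γ × ℕ => m p.1 p.2 ((fun h => g * h) '' A) - m p.1 p.2 A) U
        (𝓝 (M ((fun h => g * h) '' A) - M A)) := (hM _).sub (hM A)
    have h6 : Tendsto (fun p : Finset Γ × ℕ => 1 / ((p.2 : ℝ) + 1)) atTop (𝓝 0) :=
      tendsto_one_div_add_atTop_nhds_zero_nat.comp hsnd
    have h7 : Tendsto (fun p : Finset Γ × ℕ =>
        m p.1 p.2 ((fun h => g * h) '' A) - m p.1 p.2 A) U (𝓝 0) := by
      refine squeeze_zero_norm' ?_ (h6.mono_left hU)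
      have h8 : ∀ᶠ p : Finset Γ × ℕ in atTop, g ∈ p.1 := by
        filter_upwards [eventually_ge_atTop (({g} : Finset Γ), 0)] with p hp
        exact hp.1 (Finset.mem_singleton_self g)
      filter_upwards [hU h8] with p hp
      rw [Real.norm_eq_abs]
      exact h4 p.1 p.2 g hp A
    have h8 := tendsto_nhds_unique h5 h7
    linarith

/-- **The Bernoulli shift of a nonamenable group is strongly ergodic.** -/
theorem gap (hna : ¬ Amenable Γ) : ∃ (F : Finset Γ) (κ : ℝ), 0 < κ ∧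
    ∀ B : Set (Γ × ℕ → Bool), MeasurableSet B →
      κ * ((PP (Γ × ℕ)).real B * (1 - (PP (Γ × ℕ)).real B)) ≤
        ∑ γ ∈ F, (PP (Γ × ℕ)).real ((sh γ ⁻¹' B) ∆ B) := by
  by_contra hcon
  push Not at hcon
  apply hna
  refine amenable_of_approx fun F n => ?_
  set κ : ℝ := 1 / (8 * ((n : ℝ) + 1) ^ 2) with hκ
  have hκ0 : 0 < κ := by positivity
  have hκ1 : κ ≤ 1 := by
    rw [hκ, div_le_one (by positivity)]
    have : (0 : ℝ) ≤ n := n.cast_nonneg
    nlinarith
  obtain ⟨B, hB, hlt⟩ := hcon F κ hκ0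
  set b := (PP (Γ × ℕ)).real B with hb
  have hb0 : 0 ≤ b := measureReal_nonneg
  have hb1 : b ≤ 1 := measureReal_le_one
  have hsum0 : 0 ≤ ∑ γ ∈ F, (PP (Γ × ℕ)).real ((sh γ ⁻¹' B) ∆ B) :=
    Finset.sum_nonneg fun _ _ => measureReal_nonneg
  have hVB : 0 < b * (1 - b) := by
    by_contra h
    push Not at h
    have : κ * (b * (1 - b)) ≤ 0 := mul_nonpos_of_nonneg_of_nonpos hκ0.le h
    linarith
  obtain ⟨C, J, hC, hJ, hBC⟩ := approx_cyl hB (ε := κ * (b * (1 - b)) / 4) (by positivity)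
  set c := (PP (Γ × ℕ)).real C with hc
  have hc0 : 0 ≤ c := measureReal_nonneg
  have hc1 : c ≤ 1 := measureReal_le_one
  have hbc : |b - c| ≤ κ * (b * (1 - b)) / 4 :=
    (abs_measureReal_sub_le_measureReal_symmDiff hB.nullMeasurableSet hC.nullMeasurableSet).trans hBC
  have hη : κ * (b * (1 - b)) / 4 ≤ b * (1 - b) / 4 := by
    have : κ * (b * (1 - b)) ≤ 1 * (b * (1 - b)) := by gcongr
    linarith
  have hVC : 3 / 4 * (b * (1 - b)) ≤ c - c ^ 2 := by
    have h1 : (b * (1 - b)) - (c - c ^ 2) = (b - c) * (1 - b - c) := by ring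
    have h2 : |(b - c) * (1 - b - c)| ≤ |b - c| * 1 := by
      rw [abs_mul]
      refine mul_le_mul_of_nonneg_left ?_ (abs_nonneg _)
      rw [abs_le]
      constructor <;> linarith
    have h3 := (abs_le.1 h2).2
    linarith
  obtain ⟨m, m1, m2, m3, m4⟩ := approx_mean hC hJ (by linarith)
  refine ⟨m, m1, m2, m3, fun γ hγ A => ?_⟩
  have h5 : (PP (Γ × ℕ)).real ((sh γ ⁻¹' C) ∆ C) ≤ 2 * κ * (c - c ^ 2) := by
    have h6 : (PP (Γ × ℕ)).real ((sh γ ⁻¹' B) ∆ B) ≤ κ * (b * (1 - b)) :=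
      (Finset.single_le_sum (f := fun γ => (PP (Γ × ℕ)).real ((sh γ ⁻¹' B) ∆ B))
        (fun _ _ => measureReal_nonneg) hγ).trans hlt.le
    have h7 : (PP (Γ × ℕ)).real ((sh γ ⁻¹' C) ∆ (sh γ ⁻¹' B)) ≤ κ * (b * (1 - b)) / 4 := by
      rw [← preimage_symmDiff, measureReal_def,
        (mp_sh γ).measure_preimage (hC.symmDiff hB).nullMeasurableSet, symmDiff_comm]
      exact hBC
    have h8 : (sh γ ⁻¹' C) ∆ C ⊆ ((sh γ ⁻¹' C) ∆ (sh γ ⁻¹' B)) ∪ (((sh γ ⁻¹' B) ∆ B) ∪ (B ∆ C)) := by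
      refine (symmDiff_triangle _ (sh γ ⁻¹' B) _).trans ?_
      exact union_subset_union_right _ (symmDiff_triangle _ B _)
    calc (PP (Γ × ℕ)).real ((sh γ ⁻¹' C) ∆ C)
        ≤ (PP (Γ × ℕ)).real (((sh γ ⁻¹' C) ∆ (sh γ ⁻¹' B)) ∪ (((sh γ ⁻¹' B) ∆ B) ∪ (B ∆ C))) :=
          measureReal_mono h8
      _ ≤ (PP (Γ × ℕ)).real ((sh γ ⁻¹' C) ∆ (sh γ ⁻¹' B)) +
          (PP (Γ × ℕ)).real (((sh γ ⁻¹' B) ∆ B) ∪ (B ∆ C)) := measureReal_union_le _ _
      _ ≤ (PP (Γ × ℕ)).real ((sh γ ⁻¹' C) ∆ (sh γ ⁻¹' B)) +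
          ((PP (Γ × ℕ)).real ((sh γ ⁻¹' B) ∆ B) + (PP (Γ × ℕ)).real (B ∆ C)) := by
          gcongr
          exact measureReal_union_le _ _
      _ ≤ κ * (b * (1 - b)) / 4 + (κ * (b * (1 - b)) + κ * (b * (1 - b)) / 4) := by
          gcongr
      _ = 3 / 2 * κ * (b * (1 - b)) := by ring
      _ ≤ 2 * κ * (c - c ^ 2) := by
          have : 2 * κ * (3 / 4 * (b * (1 - b))) ≤ 2 * κ * (c - c ^ 2) := by gcongr
          linarith
  have hVpos : 0 < c - c ^ 2 := by linarith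
  have h9 : (m ((fun h => γ * h) '' A) - m A) ^ 2 ≤ 8 * κ := by
    have h10 := (m4 γ A).trans (mul_le_mul_of_nonneg_left h5 (by norm_num))
    have h11 : (m ((fun h => γ * h) '' A) - m A) ^ 2 * (c - c ^ 2) ≤ 8 * κ * (c - c ^ 2) := by
      calc _ ≤ _ := h10
        _ = _ := by ring
    exact le_of_mul_le_mul_right h11 hVpos
  have h12 : 8 * κ = (1 / ((n : ℝ) + 1)) ^ 2 := by
    rw [hκ]
    have : (n : ℝ) + 1 ≠ 0 := by positivity
    field_simp
  rw [h12] at h9
  exact abs_le_of_sq_le_sq h9 (by positivity)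

end Pool.Agent.Helper51K9.WD
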