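import Mathlib

/-!
Walsh functions on the space of sequences of fair coin flips.
-/

set_option autoImplicit false

namespace Pool.Agent.Helper51K9.WD

open MeasureTheory Set Filter Topology
open scoped ENNReal

/-- a fair coin -/
noncomputable def coin : Measure Bool := (2⁻¹ : ℝ≥0∞) • (Measure.dirac true + Measure.dirac false)

instance : IsProbabilityMeasure coin := by
  refine ⟨?_⟩
  unfold coin
  simp only [Measure.smul_apply, Measure.add_apply, measure_univ, smul_eq_mul]
  rw [one_add_one_eq_two]
  exact ENNReal.inv_mul_cancel (by norm_num) (by norm_num)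

theorem coin_not : coin.map (fun b => !b) = coin := by
  have h : Measurable (fun b : Bool => !b) := measurable_of_countable _
  unfold coin
  rw [Measure.map_smul, Measure.map_add _ _ h, Measure.map_dirac' h, Measure.map_dirac' h,
    Bool.not_true, Bool.not_false, add_comm]

variable {I : Type}

/-- the space of coin flips -/
noncomputable def PP (I : Type) : Measure (I → Bool) := Measure.infinitePi fun _ : I => coin

instance : IsProbabilityMeasure (PP I) := by
  unfold PP
  infer_instance

theorem mp_perm (σ : I ≃ I) :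
    MeasurePreserving (fun (y : I → Bool) i => y (σ i)) (PP I) (PP I) := by
  refine ⟨measurable_pi_lambda _ fun i => measurable_pi_apply _, ?_⟩
  exact Measure.map_infinitePi_infinitePi_of_inj (P := fun _ : I => coin) σ.injective

variable [DecidableEq I]

/-- flipping the coordinate `i` -/
def fl (i : I) (y : I → Bool) : I → Bool := fun j => if j = i then !(y j) else y j

theorem mp_fl (i : I) : MeasurePreserving (fl i) (PP I) (PP I) := by
  have h1 : ∀ j, Measurable (fun b : Bool => if j = i then !b else b) := fun j =>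
    measurable_of_countable _
  refine ⟨measurable_pi_lambda _ fun j => (h1 j).comp (measurable_pi_apply j), ?_⟩
  have h2 := Measure.infinitePi_map_pi (μ := fun _ : I => coin)
    (f := fun j (b : Bool) => if j = i then !b else b) h1
  have h3 : (fun y : I → Bool => fun j => if j = i then !(y j) else y j) = fl i := rfl
  unfold PP
  rw [← h3]
  refine h2.trans ?_
  congr 1
  funext j
  by_cases hj : j = i
  · simp only [hj, if_true]
    exact coin_not
  · simp only [hj, if_false]
    exact Measure.map_id'

/-- the sign of a coin flip -/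
def sg (b : Bool) : ℝ := if b then -1 else 1

theorem sg_not (b : Bool) : sg (!b) = -sg b := by
  cases b <;> simp [sg]

theorem sg_sq (b : Bool) : sg b * sg b = 1 := by
  cases b <;> simp [sg]

/-- the Walsh functions -/
def chi (S : Finset I) (y : I → Bool) : ℝ := ∏ i ∈ S, sg (y i)

omit [DecidableEq I] in
theorem meas_chi (S : Finset I) : Measurable (chi S) := by
  unfold chi
  exact Finset.measurable_prod _ fun i _ => (measurable_of_countable sg).comp (measurable_pi_apply i)

omit [DecidableEq I] in
theorem chi_sq (S : Finset I) (y : I → Bool) : chi S y * chi S y = 1 := by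
  unfold chi
  rw [← Finset.prod_mul_distrib]
  exact Finset.prod_eq_one fun i _ => sg_sq _

omit [DecidableEq I] in
theorem abs_chi (S : Finset I) (y : I → Bool) : |chi S y| = 1 := by
  have h := chi_sq S y
  have h2 : |chi S y| * |chi S y| = 1 := by rw [← abs_mul, h, abs_one]
  nlinarith [abs_nonneg (chi S y)]

theorem chi_fl_mem {S : Finset I} {i : I} (hi : i ∈ S) (y : I → Bool) :
    chi S (fl i y) = -chi S y := by
  unfold chi
  rw [← Finset.mul_prod_erase _ _ hi, ← Finset.mul_prod_erase S (fun i => sg (y i)) hi]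
  have h1 : sg (fl i y i) = -sg (y i) := by
    unfold fl
    rw [if_pos rfl, sg_not]
  have h2 : ∏ j ∈ S.erase i, sg (fl i y j) = ∏ j ∈ S.erase i, sg (y j) := by
    refine Finset.prod_congr rfl fun j hj => ?_
    unfold fl
    rw [if_neg (Finset.ne_of_mem_erase hj)]
  rw [h1, h2, neg_mul]

theorem chi_fl_not {S : Finset I} {i : I} (hi : i ∉ S) (y : I → Bool) :
    chi S (fl i y) = chi S y := by
  unfold chi
  refine Finset.prod_congr rfl fun j hj => ?_
  unfold fl
  rw [if_neg]
  rintro rfl
  exact hi hj

/-- bounded measurable functions -/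
def BM (f : (I → Bool) → ℝ) : Prop := Measurable f ∧ ∃ C, ∀ y, |f y| ≤ C

omit [DecidableEq I] in
theorem BM.int {f : (I → Bool) → ℝ} (hf : BM f) : Integrable f (PP I) := by
  obtain ⟨h1, C, hC⟩ := hf
  exact Integrable.of_bound h1.aestronglyMeasurable C (Eventually.of_forall hC)

omit [DecidableEq I] in
theorem BM.mul {f g : (I → Bool) → ℝ} (hf : BM f) (hg : BM g) : BM fun y => f y * g y := by
  obtain ⟨h1, C, hC⟩ := hf
  obtain ⟨h2, D, hD⟩ := hg
  refine ⟨h1.mul h2, C * D, fun y => ?_⟩
  rw [abs_mul]
  exact mul_le_mul (hC y) (hD y) (abs_nonneg _) ((abs_nonneg _).trans (hC y))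

omit [DecidableEq I] in
theorem BM.sub {f g : (I → Bool) → ℝ} (hf : BM f) (hg : BM g) : BM fun y => f y - g y := by
  obtain ⟨h1, C, hC⟩ := hf
  obtain ⟨h2, D, hD⟩ := hg
  exact ⟨h1.sub h2, C + D, fun y => (abs_sub _ _).trans (add_le_add (hC y) (hD y))⟩

omit [DecidableEq I] in
theorem BM.chi (S : Finset I) : BM (chi S) := ⟨meas_chi S, 1, fun y => (abs_chi S y).le⟩

omit [DecidableEq I] in
theorem BM.const (c : ℝ) : BM fun _ : I → Bool => c := ⟨measurable_const, |c|, fun _ => le_rfl⟩

omit [DecidableEq I] in
theorem BM.sum {α : Type} (s : Finset α) {f : α → (I → Bool) → ℝ} (hf : ∀ a ∈ s, BM (f a)) :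
    BM fun y => ∑ a ∈ s, f a y := by
  classical
  induction s using Finset.induction_on with
  | empty => simpa using BM.const 0
  | insert a s ha ih =>
    have h1 := hf a (Finset.mem_insert_self _ _)
    obtain ⟨h2, C, hC⟩ := ih fun b hb => hf b (Finset.mem_insert_of_mem hb)
    obtain ⟨h3, D, hD⟩ := h1
    refine ⟨?_, D + C, fun y => ?_⟩
    · simp only [Finset.sum_insert ha]
      exact h3.add h2
    · simp only [Finset.sum_insert ha]
      exact (abs_add_le _ _).trans (add_le_add (hD y) (hC y))

/-- the Fourier coefficients -/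
noncomputable def fc (f : (I → Bool) → ℝ) (S : Finset I) : ℝ := ∫ y, f y * chi S y ∂(PP I)

theorem int_zero_of_flip {g : (I → Bool) → ℝ} (i : I) (hg : ∀ y, g (fl i y) = -g y)
    (hgm : Measurable g) : ∫ y, g y ∂(PP I) = 0 := by
  have h1 : ∫ y, g (fl i y) ∂(PP I) = ∫ y, g y ∂(PP I) := by
    have h2 := integral_map (μ := PP I) (mp_fl i).measurable.aemeasurable (f := g)
      hgm.aestronglyMeasurable
    rw [(mp_fl i).map_eq] at h2
    exact h2.symm
  simp only [hg] at h1
  rw [integral_neg] at h1
  linarith

/-- orthogonality -/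
theorem orth (S T : Finset I) : ∫ y, chi S y * chi T y ∂(PP I) = if S = T then 1 else 0 := by
  by_cases h : S = T
  · subst h
    rw [if_pos rfl]
    simp only [chi_sq, integral_const, probReal_univ, smul_eq_mul, mul_one]
  · rw [if_neg h]
    have hex : ∃ i, (i ∈ S ∧ i ∉ T) ∨ (i ∉ S ∧ i ∈ T) := by
      by_contra hcon
      push Not at hcon
      apply h
      ext i
      have := hcon i
      tauto
    obtain ⟨i, ⟨h1, h2⟩ | ⟨h1, h2⟩⟩ := hex
    · refine int_zero_of_flip i (fun y => ?_) ((meas_chi S).mul (meas_chi T))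
      rw [chi_fl_mem h1, chi_fl_not h2]
      ring
    · refine int_zero_of_flip i (fun y => ?_) ((meas_chi S).mul (meas_chi T))
      rw [chi_fl_not h1, chi_fl_mem h2]
      ring

theorem int_chi (S : Finset I) : ∫ y, chi S y ∂(PP I) = if S = ∅ then 1 else 0 := by
  have h := orth S ∅
  have h1 : ∀ y : I → Bool, chi S y * chi ∅ y = chi S y := fun y => by simp [chi]
  simp only [h1] at h
  exact h

/-- `f` only depends on the coordinates in `J` -/
def Dep (J : Finset I) (f : (I → Bool) → ℝ) : Prop := ∀ y z, (∀ i ∈ J, y i = z i) → f y = f z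

theorem fc_zero {J : Finset I} {f : (I → Bool) → ℝ} (hf : Measurable f) (hd : Dep J f)
    {S : Finset I} (hS : ¬ S ⊆ J) : fc f S = 0 := by
  obtain ⟨i, hi, hiJ⟩ := Finset.not_subset.1 hS
  refine int_zero_of_flip i (fun y => ?_) (hf.mul (meas_chi S))
  rw [chi_fl_mem hi, hd (fl i y) y fun j hj => ?_]
  · ring
  · unfold fl
    rw [if_neg]
    rintro rfl
    exact hiJ hj

omit [DecidableEq I] in
theorem kernel (J : Finset I) (y z : I → Bool) :
    ∑ S ∈ J.powerset, chi S z * chi S y = ∏ i ∈ J, (1 + sg (z i) * sg (y i)) := by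
  classical
  rw [Finset.prod_one_add]
  refine Finset.sum_congr rfl fun S _ => ?_
  unfold chi
  rw [Finset.prod_mul_distrib]

/-- the finite expansion -/
theorem expand {J : Finset I} {f : (I → Bool) → ℝ} (hf : BM f) (hd : Dep J f) (y : I → Bool) :
    f y = ∑ S ∈ J.powerset, fc f S * chi S y := by
  have h1 : ∑ S ∈ J.powerset, fc f S * chi S y
      = ∫ z, f z * ∑ S ∈ J.powerset, chi S z * chi S y ∂(PP I) := by
    unfold fc
    simp only [← integral_mul_const]
    rw [← integral_finsetSum]
    · congr 1
      funext z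
      rw [Finset.mul_sum]
      exact Finset.sum_congr rfl fun S _ => by ring
    · intro S _
      exact (((hf.mul (BM.chi S)).mul (BM.const (chi S y)))).int
  have h2 : ∀ z, f z * ∑ S ∈ J.powerset, chi S z * chi S y
      = f y * ∑ S ∈ J.powerset, chi S z * chi S y := by
    intro z
    by_cases h : ∀ i ∈ J, z i = y i
    · rw [hd z y h]
    · push Not at h
      obtain ⟨i, hi, hne⟩ := h
      have h3 : ∑ S ∈ J.powerset, chi S z * chi S y = 0 := by
        rw [kernel]
        refine Finset.prod_eq_zero hi ?_
        revert hne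
        cases z i <;> cases y i <;> simp [sg]
      rw [h3, mul_zero, mul_zero]
  simp only [h2] at h1
  rw [h1, integral_const_mul, integral_finsetSum]
  · simp only [integral_mul_const, int_chi]
    rw [Finset.sum_eq_single ∅]
    · simp [chi]
    · intro S _ hS
      rw [if_neg hS, zero_mul]
    · intro h
      exact absurd (Finset.empty_mem_powerset J) h
  · intro S _
    exact ((BM.chi S).mul (BM.const (chi S y))).int

/-- Parseval for functions of finitely many coordinates -/
theorem parseval {J : Finset I} {f : (I → Bool) → ℝ} (hf : BM f) (hd : Dep J f) :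
    ∫ y, f y * f y ∂(PP I) = ∑ S ∈ J.powerset, fc f S ^ 2 := by
  have h1 : ∀ y, f y * f y = ∑ S ∈ J.powerset, fc f S * (f y * chi S y) := by
    intro y
    conv_lhs => rw [expand hf hd y]
    rw [Finset.sum_mul]
    refine Finset.sum_congr rfl fun S _ => ?_
    rw [← expand hf hd y]
    ring
  simp only [h1]
  rw [integral_finsetSum]
  · refine Finset.sum_congr rfl fun S _ => ?_
    rw [integral_const_mul, pow_two]
    rfl
  · intro S _
    exact ((BM.const _).mul (hf.mul (BM.chi S))).int

/-- Bessel's inequality -/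
theorem bessel {f : (I → Bool) → ℝ} (hf : BM f) (𝒮 : Finset (Finset I)) :
    ∑ S ∈ 𝒮, fc f S ^ 2 ≤ ∫ y, f y * f y ∂(PP I) := by
  set g : (I → Bool) → ℝ := fun y => ∑ S ∈ 𝒮, fc f S * chi S y with hg
  have hgB : BM g := BM.sum 𝒮 fun S _ => (BM.const _).mul (BM.chi S)
  have h1 : ∫ y, f y * g y ∂(PP I) = ∑ S ∈ 𝒮, fc f S ^ 2 := by
    have h2 : ∀ y, f y * g y = ∑ S ∈ 𝒮, fc f S * (f y * chi S y) := by
      intro y
      rw [hg]
      simp only
      rw [Finset.mul_sum]
      exact Finset.sum_congr rfl fun S _ => by ring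
    simp only [h2]
    rw [integral_finsetSum]
    · refine Finset.sum_congr rfl fun S _ => ?_
      rw [integral_const_mul, pow_two]
      rfl
    · intro S _
      exact ((BM.const _).mul (hf.mul (BM.chi S))).int
  have h3 : ∫ y, g y * g y ∂(PP I) = ∑ S ∈ 𝒮, fc f S ^ 2 := by
    have h2 : ∀ y, g y * g y = ∑ S ∈ 𝒮, ∑ T ∈ 𝒮, fc f S * fc f T * (chi S y * chi T y) := by
      intro y
      rw [hg]
      simp only
      rw [Finset.sum_mul_sum]
      refine Finset.sum_congr rfl fun S _ => Finset.sum_congr rfl fun T _ => by ring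
    simp only [h2]
    rw [integral_finsetSum]
    · refine Finset.sum_congr rfl fun S hS => ?_
      rw [integral_finsetSum]
      · simp only [integral_const_mul, orth]
        rw [Finset.sum_eq_single S]
        · rw [if_pos rfl, mul_one, pow_two]
        · intro T _ hT
          rw [if_neg (fun h => hT h.symm), mul_zero]
        · intro h
          exact absurd hS h
      · intro T _
        exact ((BM.const _).mul ((BM.chi S).mul (BM.chi T))).int
    · intro S _
      exact (BM.sum 𝒮 fun T _ => (BM.const _).mul ((BM.chi S).mul (BM.chi T))).int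
  have h4 : 0 ≤ ∫ y, (f y - g y) * (f y - g y) ∂(PP I) :=
    integral_nonneg fun y => mul_self_nonneg _
  have h5 : ∫ y, (f y - g y) * (f y - g y) ∂(PP I)
      = ∫ y, f y * f y ∂(PP I) - 2 * ∫ y, f y * g y ∂(PP I) + ∫ y, g y * g y ∂(PP I) := by
    have h6 : ∀ y, (f y - g y) * (f y - g y) = (f y * f y - 2 * (f y * g y)) + g y * g y := by
      intro y; ring
    simp only [h6]
    rw [integral_add, integral_sub, integral_const_mul]
    · exact (hf.mul hf).int
    · exact ((BM.const 2).mul (hf.mul hgB)).int
    · exact ((hf.mul hf).sub ((BM.const 2).mul (hf.mul hgB))).int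
    · exact (hgB.mul hgB).int
  rw [h5, h1, h3] at h4
  linarith

end Pool.Agent.Helper51K9.WD
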